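import Pool.Agent.N805.VP.Stm

/-! # The determinant of the sine kernel (helper424, project VP) -/

set_option autoImplicit false

open MeasureTheory Set Filter Topology

namespace Pool.Agent.N424.VP

open Matrix

/-- AM–GM for the eigenvalues of a positive semidefinite matrix whose trace is at most its size
(as in H239R2/Cover/AMGM.lean). -/
theorem det_le_one_of_trace_le {k : ℕ} (S : Matrix (Fin k) (Fin k) ℝ) (hS : S.PosSemidef)
    (ht : S.trace ≤ k) : S.det ≤ 1 := by
  have h1 := hS.isHermitian.det_eq_prod_eigenvalues
  have h2 := hS.isHermitian.trace_eq_sum_eigenvalues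
  simp only [RCLike.ofReal_real_eq_id, id_eq] at h1 h2
  rw [h1]
  calc ∏ i, hS.isHermitian.eigenvalues i
      ≤ ∏ i, Real.exp (hS.isHermitian.eigenvalues i - 1) := by
        apply Finset.prod_le_prod
        · intro i _; exact hS.eigenvalues_nonneg i
        · intro i _
          have := Real.add_one_le_exp (hS.isHermitian.eigenvalues i - 1)
          linarith
    _ = Real.exp (∑ i, (hS.isHermitian.eigenvalues i - 1)) := by
        rw [Real.exp_sum]
    _ ≤ 1 := by
        rw [Finset.sum_sub_distrib, ← h2, Real.exp_le_one_iff]
        simp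
        linarith

/-- the sine kernel as an integral -/
lemma sinc_int (u : ℝ) : Real.sinc (Real.pi * u) =
    ∫ ξ in (-(1 / 2 : ℝ))..(1 / 2), Real.cos (2 * Real.pi * u * ξ) := by
  by_cases hu : u = 0
  · subst hu
    simp
    norm_num
  · have hpi := Real.pi_pos
    have hne : 2 * Real.pi * u ≠ 0 := by positivity
    rw [intervalIntegral.integral_comp_mul_left (fun x => Real.cos x) hne, integral_cos,
      Real.sinc_of_ne_zero (by positivity)]
    have e1 : 2 * Real.pi * u * (1 / 2) = Real.pi * u := by ring
    have e2 : 2 * Real.pi * u * -(1 / 2) = -(Real.pi * u) := by ring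
    rw [e1, e2, Real.sin_neg, smul_eq_mul]
    field_simp
    ring

/-- the matrix is positive semidefinite -/
lemma psd {k : ℕ} (q : Fin k → ℝ) :
    (Matrix.of fun i j : Fin k => Real.sinc (Real.pi * (q i - q j))).PosSemidef := by
  refine Matrix.PosSemidef.of_dotProduct_mulVec_nonneg ?_ ?_
  · ext i j
    simp only [Matrix.conjTranspose_apply, Matrix.of_apply, star_trivial]
    rw [show Real.pi * (q j - q i) = -(Real.pi * (q i - q j)) by ring, Real.sinc_neg]
  · intro x
    have hint : ∀ u : ℝ, IntervalIntegrable (fun ξ : ℝ => Real.cos (2 * Real.pi * u * ξ)) volume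
        (-(1 / 2 : ℝ)) (1 / 2) := fun u => by
      apply Continuous.intervalIntegrable
      fun_prop
    have key : star x ⬝ᵥ ((Matrix.of fun i j : Fin k => Real.sinc (Real.pi * (q i - q j))) *ᵥ x) =
        ∫ ξ in (-(1 / 2 : ℝ))..(1 / 2),
          ((∑ i, x i * Real.cos (2 * Real.pi * q i * ξ)) ^ 2 +
            (∑ i, x i * Real.sin (2 * Real.pi * q i * ξ)) ^ 2) := by
      have e1 : star x ⬝ᵥ
          ((Matrix.of fun i j : Fin k => Real.sinc (Real.pi * (q i - q j))) *ᵥ x) =
          ∑ i, ∑ j, x i * x j * ∫ ξ in (-(1 / 2 : ℝ))..(1 / 2),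
            Real.cos (2 * Real.pi * (q i - q j) * ξ) := by
        simp only [dotProduct, Matrix.mulVec, Matrix.of_apply, Pi.star_apply, star_trivial]
        refine Finset.sum_congr rfl fun i _ => ?_
        rw [Finset.mul_sum]
        refine Finset.sum_congr rfl fun j _ => ?_
        rw [sinc_int]
        ring
      rw [e1]
      simp only [← intervalIntegral.integral_const_mul]
      have e2 : ∀ i j : Fin k, IntervalIntegrable
          (fun ξ : ℝ => x i * x j * Real.cos (2 * Real.pi * (q i - q j) * ξ)) volume
          (-(1 / 2 : ℝ)) (1 / 2) := fun i j => (hint _).const_mul _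
      have e3 : ∀ i : Fin k, ∑ j, ∫ ξ in (-(1 / 2 : ℝ))..(1 / 2),
          x i * x j * Real.cos (2 * Real.pi * (q i - q j) * ξ) =
          ∫ ξ in (-(1 / 2 : ℝ))..(1 / 2), ∑ j,
            x i * x j * Real.cos (2 * Real.pi * (q i - q j) * ξ) := fun i =>
        (intervalIntegral.integral_finsetSum fun j _ => e2 i j).symm
      simp only [e3]
      rw [← intervalIntegral.integral_finsetSum]
      · refine intervalIntegral.integral_congr fun ξ _ => ?_
        show ∑ i, ∑ j, x i * x j * Real.cos (2 * Real.pi * (q i - q j) * ξ) =
          (∑ i, x i * Real.cos (2 * Real.pi * q i * ξ)) ^ 2 +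
            (∑ i, x i * Real.sin (2 * Real.pi * q i * ξ)) ^ 2
        rw [sq, sq, Finset.sum_mul_sum, Finset.sum_mul_sum, ← Finset.sum_add_distrib]
        refine Finset.sum_congr rfl fun i _ => ?_
        rw [← Finset.sum_add_distrib]
        refine Finset.sum_congr rfl fun j _ => ?_
        rw [show 2 * Real.pi * (q i - q j) * ξ = 2 * Real.pi * q i * ξ - 2 * Real.pi * q j * ξ by
          ring, Real.cos_sub]
        ring
      · intro i _
        apply Continuous.intervalIntegrable
        fun_prop
    rw [key]
    apply intervalIntegral.integral_nonneg (by norm_num)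
    intro ξ _
    positivity

/-- lower bound for sinc -/
lemma sinc_lower (y : ℝ) : 1 - y ^ 2 / 6 ≤ Real.sinc y := by
  wlog hy : 0 ≤ y with H
  · have := H (-y) (by linarith)
    rw [Real.sinc_neg] at this
    linarith [show (-y) ^ 2 = y ^ 2 by ring]
  rcases hy.eq_or_lt with h | h
  · rw [← h]; simp
  · rw [Real.sinc_of_ne_zero h.ne', le_div_iff₀ h]
    have := Real.sin_ge_sub_cube hy
    nlinarith

theorem DET : Pool.Agent.N805.VP.S_DET := by
  intro k q
  have hA := psd q
  set A : Matrix (Fin k) (Fin k) ℝ := Matrix.of fun i j : Fin k =>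
    Real.sinc (Real.pi * (q i - q j)) with hAdef
  have hD : Pool.Agent.N805.VP.D q = A.det := rfl
  have hdiag : ∀ l, A l l = 1 := by
    intro l
    simp [hAdef]
  rw [hD]
  refine ⟨hA.det_nonneg, ?_, ?_⟩
  · apply det_le_one_of_trace_le A hA
    unfold Matrix.trace
    simp [hdiag]
  · intro i j hij
    have hsym : A j i = A i j := by
      simp only [hAdef, Matrix.of_apply]
      rw [show Real.pi * (q j - q i) = -(Real.pi * (q i - q j)) by ring, Real.sinc_neg]
    have hδ : 0 ≤ 2 - 2 * A i j := by
      have : A i j ≤ 1 := Real.sinc_le_one _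
      linarith
    have main : ∀ ε : ℝ, 0 < ε → A.det ≤ 2 - 2 * A i j + ε := by
      intro ε hε
      set δ := 2 - 2 * A i j with hδdef
      set r : ℝ := 1 / Real.sqrt (δ + ε) with hr
      have hpos : 0 < δ + ε := by linarith
      have hr2 : r ^ 2 = 1 / (δ + ε) := by
        rw [hr, div_pow, one_pow, Real.sq_sqrt hpos.le]
      set M : Matrix (Fin k) (Fin k) ℝ :=
        Matrix.diagonal (Function.update 1 i r) * Matrix.transvection i j (-1) with hM
      have hdetM : M.det = r := by
        rw [hM, Matrix.det_mul, Matrix.det_diagonal, Matrix.det_transvection_of_ne _ _ hij, mul_one,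
          Finset.prod_update_of_mem (Finset.mem_univ i)]
        simp
      have hMrow : ∀ l m, M l m = if l = i then (if m = i then r else if m = j then -r else 0)
          else (if l = m then 1 else 0) := by
        intro l m
        rw [hM, Matrix.diagonal_mul, Matrix.transvection, Matrix.add_apply, Matrix.single_apply,
          Matrix.one_apply]
        by_cases hl : l = i
        · subst hl
          rw [Function.update_self, if_pos rfl]
          by_cases hm : m = l
          · subst hm
            simp [hij.symm]
          · by_cases hm2 : m = j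
            · subst hm2
              simp [hij, hm]
            · simp [hm, Ne.symm hm, Ne.symm hm2, hm2]
        · rw [Function.update_of_ne hl, if_neg hl]
          simp [Ne.symm hl]
      have hB : (M * A * Mᴴ).PosSemidef := hA.mul_mul_conjTranspose_same M
      have hBdet : (M * A * Mᴴ).det = r ^ 2 * A.det := by
        rw [Matrix.det_mul, Matrix.det_mul, Matrix.det_conjTranspose, hdetM, star_trivial]
        ring
      have hentry : ∀ l, (M * A * Mᴴ) l l = ∑ b, (∑ a, M l a * A a b) * M l b := by
        intro l
        rw [Matrix.mul_apply]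
        refine Finset.sum_congr rfl fun b _ => ?_
        rw [Matrix.mul_apply, Matrix.conjTranspose_apply, star_trivial]
      have hne : ∀ l, l ≠ i → (M * A * Mᴴ) l l = 1 := by
        intro l hl
        rw [hentry]
        simp only [hMrow, if_neg hl]
        simp [hdiag]
      have hi : (M * A * Mᴴ) i i = δ / (δ + ε) := by
        rw [hentry]
        have h1 : ∀ b, M i b = r * ((if b = i then 1 else 0) - (if b = j then 1 else 0)) := by
          intro b
          rw [hMrow, if_pos rfl]
          by_cases hb : b = i
          · subst hb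
            simp [hij]
          · by_cases hb2 : b = j
            · simp [hb, hb2, hij.symm]
            · simp [hb, hb2]
        simp only [h1]
        have h2 : ∀ b, ∑ a, r * ((if a = i then (1 : ℝ) else 0) - (if a = j then 1 else 0)) * A a b =
            r * (A i b - A j b) := by
          intro b
          simp only [mul_assoc, ← Finset.mul_sum, sub_mul, Finset.sum_sub_distrib]
          simp
        simp only [h2]
        have h3 : ∑ b, r * (A i b - A j b) *
            (r * ((if b = i then (1 : ℝ) else 0) - (if b = j then 1 else 0))) =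
            r ^ 2 * ((A i i - A j i) - (A i j - A j j)) := by
          have : ∀ b, r * (A i b - A j b) *
            (r * ((if b = i then (1 : ℝ) else 0) - (if b = j then 1 else 0))) =
            r ^ 2 * ((A i b - A j b) * (if b = i then (1 : ℝ) else 0) -
              (A i b - A j b) * (if b = j then (1 : ℝ) else 0)) := by
            intro b; ring
          simp only [this, ← Finset.mul_sum, Finset.sum_sub_distrib]
          simp
        rw [h3, hdiag, hdiag, hsym, hr2, hδdef]
        ring
      have htr : (M * A * Mᴴ).trace ≤ k := by
        unfold Matrix.trace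
        have h4 : ∀ l, (M * A * Mᴴ).diag l ≤ 1 := by
          intro l
          rw [Matrix.diag_apply]
          by_cases hl : l = i
          · subst hl
            rw [hi, div_le_one hpos]
            linarith
          · rw [hne l hl]
        calc ∑ l, (M * A * Mᴴ).diag l ≤ ∑ l : Fin k, (1 : ℝ) := Finset.sum_le_sum fun l _ => h4 l
          _ = k := by simp
      have h5 := det_le_one_of_trace_le _ hB htr
      rw [hBdet, hr2, div_mul_eq_mul_div, one_mul, div_le_one hpos] at h5
      exact h5
    have h6 : A.det ≤ 2 - 2 * A i j := le_of_forall_pos_le_add main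
    have h7 := sinc_lower (Real.pi * (q i - q j))
    have h8 : A i j = Real.sinc (Real.pi * (q i - q j)) := rfl
    rw [← h8] at h7
    have hpi : Real.pi ^ 2 ≤ 12 := by
      have := Real.pi_lt_d2
      nlinarith [Real.pi_pos]
    have : (Real.pi * (q i - q j)) ^ 2 / 6 * 2 ≤ 4 * (q i - q j) ^ 2 := by
      rw [mul_pow]
      nlinarith [sq_nonneg (q i - q j)]
    linarith

end Pool.Agent.N424.VP
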